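import Pool.Agent.helper42.NS.Spec

/-!
# Row nos:CRD: number of points with large eigenspace
-/

set_option autoImplicit false

namespace Pool.Agent.helper42.NS

open Polynomial Matrix

/-- `dotb b` as a linear map -/
def CRD_lin {K : Type} [CommRing K] {t : ℕ} (b : Fin t → Bool) : (Fin t → K) →ₗ[K] K where
  toFun u := dotb b u
  map_add' u v := by
    unfold dotb
    rw [← Finset.sum_add_distrib]
    refine Finset.sum_congr rfl fun j _ => ?_
    split_ifs
    · rfl
    · rw [add_zero]
  map_smul' c u := by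
    unfold dotb
    rw [RingHom.id_apply, Finset.smul_sum]
    refine Finset.sum_congr rfl fun j _ => ?_
    split_ifs
    · rfl
    · rw [smul_zero]

theorem CRD_exists (K : Type) [Field K] (t k : ℕ) (E : Submodule K (Fin t → K))
    (B : Fin k → Fin t → Bool) (h : k < Module.finrank K E) :
    ∃ u ∈ E, u ≠ 0 ∧ ∀ i, dotb (B i) u = 0 := by
  let f : E →ₗ[K] (Fin k → K) := LinearMap.pi fun i => (CRD_lin (B i)).comp E.subtype
  have hlt : Module.finrank K (Fin k → K) < Module.finrank K E := by
    rw [Module.finrank_fin_fun]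
    exact h
  have hker := LinearMap.ker_ne_bot_of_finrank_lt (f := f) hlt
  obtain ⟨x, hx, hx0⟩ := Submodule.exists_mem_ne_zero_of_ne_bot hker
  refine ⟨x, x.2, fun h0 => hx0 (Subtype.ext h0), fun i => ?_⟩
  exact congrFun (LinearMap.mem_ker.mp hx) i

/-- **Row CRD**. -/
theorem CRD (h1 : EXR_stmt) (h2 : PTS_stmt) : CRD_stmt := by
  intro t L H hH ht h s hs
  obtain ⟨B, hB⟩ := h1 t L H hH.2.2 ht h
  refine h2 t (3 * L + 3) L H B hH ht hB s fun P hP => ?_
  have := P.isMaximal
  letI : Field (KP P) := Ideal.Quotient.field P.asIdeal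
  exact CRD_exists (KP P) t (3 * L + 3) (EigK (KP P) (lamP P) H) B (hs P hP)

end Pool.Agent.helper42.NS
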