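import Pool.Agent.helper29.NS.SpecC

/-!
# ns: the equations in log-polar coordinates (PQ)
-/

set_option autoImplicit false

namespace NS

open MeasureTheory Filter Topology Set

theorem PQ_lin (L : ℝ × ℝ →L[ℝ] ℝ) (x y : ℝ) : L (x, y) = x * L (1, 0) + y * L (0, 1) := by
  have h : ((x, y) : ℝ × ℝ) = x • ((1 : ℝ), (0 : ℝ)) + y • ((0 : ℝ), (1 : ℝ)) := by
    ext <;> simp
  rw [h, map_add, map_smul, map_smul, smul_eq_mul, smul_eq_mul]

theorem PQ_th {f : ℝ × ℝ → ℝ} (hf : Differentiable ℝ f) (θ s : ℝ) :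
    HasDerivAt (fun t => f (lp (t, s))) (-(Real.exp s * Real.sin θ) * px f (lp (θ, s)) +
      Real.exp s * Real.cos θ * py f (lp (θ, s))) θ := by
  have h1 : HasDerivAt (fun t : ℝ => lp (t, s))
      (-(Real.exp s * Real.sin θ), Real.exp s * Real.cos θ) θ := by
    have h2 := (Real.hasDerivAt_cos θ).const_mul (Real.exp s)
    have h3 := (Real.hasDerivAt_sin θ).const_mul (Real.exp s)
    have h4 := h2.prodMk h3
    rw [mul_neg] at h4
    exact h4
  have h2 := (hf (lp (θ, s))).hasFDerivAt.comp_hasDerivAt θ h1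
  rw [PQ_lin] at h2
  exact h2

theorem PQ_s {f : ℝ × ℝ → ℝ} (hf : Differentiable ℝ f) (θ s : ℝ) :
    HasDerivAt (fun t => f (lp (θ, t))) (Real.exp s * Real.cos θ * px f (lp (θ, s)) +
      Real.exp s * Real.sin θ * py f (lp (θ, s))) s := by
  have h1 : HasDerivAt (fun t : ℝ => lp (θ, t))
      (Real.exp s * Real.cos θ, Real.exp s * Real.sin θ) s := by
    have h2 := (Real.hasDerivAt_exp s).mul_const (Real.cos θ)
    have h3 := (Real.hasDerivAt_exp s).mul_const (Real.sin θ)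
    exact h2.prodMk h3
  have h2 := (hf (lp (θ, s))).hasFDerivAt.comp_hasDerivAt s h1
  rw [PQ_lin] at h2
  exact h2

theorem PQ_px {F : ℝ × ℝ → ℝ} {θ s d : ℝ} (hF : DifferentiableAt ℝ F (θ, s))
    (h : HasDerivAt (fun t => F (t, s)) d θ) : px F (θ, s) = d := by
  have h1 : HasDerivAt (fun t : ℝ => (t, s)) ((1 : ℝ), (0 : ℝ)) θ :=
    (hasDerivAt_id θ).prodMk (hasDerivAt_const θ s)
  have h2 : HasFDerivAt F (fderiv ℝ F (θ, s)) ((fun t : ℝ => (t, s)) θ) := hF.hasFDerivAt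
  exact (h2.comp_hasDerivAt θ h1).unique h

theorem PQ_py {F : ℝ × ℝ → ℝ} {θ s d : ℝ} (hF : DifferentiableAt ℝ F (θ, s))
    (h : HasDerivAt (fun t => F (θ, t)) d s) : py F (θ, s) = d := by
  have h1 : HasDerivAt (fun t : ℝ => (θ, t)) ((0 : ℝ), (1 : ℝ)) s :=
    (hasDerivAt_const s θ).prodMk (hasDerivAt_id s)
  have h2 : HasFDerivAt F (fderiv ℝ F (θ, s)) ((fun t : ℝ => (θ, t)) s) := hF.hasFDerivAt
  exact (h2.comp_hasDerivAt s h1).unique h

theorem PQ_c1 {f : ℝ × ℝ → ℝ} (hf : ContDiff ℝ 2 f) :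
    Differentiable ℝ (px f) ∧ Differentiable ℝ (py f) := by
  have h : ContDiff ℝ 1 (fderiv ℝ f) := hf.fderiv_right (by norm_num)
  have h1 : ∀ v : ℝ × ℝ, ContDiff ℝ 1 (fun q => fderiv ℝ f q v) := fun v =>
    h.clm_apply contDiff_const
  exact ⟨(h1 _).differentiable (by norm_num), (h1 _).differentiable (by norm_num)⟩

theorem PQ_symm {f : ℝ × ℝ → ℝ} (hf : ContDiff ℝ 2 f) (q : ℝ × ℝ) :
    px (py f) q = py (px f) q := by
  have h : ContDiff ℝ 1 (fderiv ℝ f) := hf.fderiv_right (by norm_num)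
  have hd : DifferentiableAt ℝ (fderiv ℝ f) q := (h.differentiable (by norm_num)) q
  have h1 : ∀ v w : ℝ × ℝ, fderiv ℝ (fun q => fderiv ℝ f q v) q w =
      fderiv ℝ (fderiv ℝ f) q w v := by
    intro v w
    rw [fderiv_clm_apply hd (differentiableAt_const v)]
    simp
  have h2 : IsSymmSndFDerivAt ℝ f q := hf.contDiffAt.isSymmSndFDerivAt (by simp)
  show fderiv ℝ (fun q => fderiv ℝ f q (0, 1)) q (1, 0) =
    fderiv ℝ (fun q => fderiv ℝ f q (1, 0)) q (0, 1)
  rw [h1, h1]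
  exact h2.eq _ _

theorem PQ_div {f g : ℝ × ℝ → ℝ} (hf : Differentiable ℝ f) (hg : Differentiable ℝ g)
    {U : Set (ℝ × ℝ)} (hU : IsOpen U) (h : ∀ q ∈ U, f q + g q = 0) {q : ℝ × ℝ} (hq : q ∈ U) :
    px f q + px g q = 0 ∧ py f q + py g q = 0 := by
  have h1 : (fun q => f q + g q) =ᶠ[𝓝 q] fun _ => (0 : ℝ) := by
    filter_upwards [hU.mem_nhds hq] with x hx
    exact h x hx
  have h2 : fderiv ℝ (fun q => f q + g q) q = 0 := by
    rw [h1.fderiv_eq]
    simp
  have h3 : fderiv ℝ (fun q => f q + g q) q = fderiv ℝ f q + fderiv ℝ g q :=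
    fderiv_add (hf q) (hg q)
  rw [h3] at h2
  have h4 : ∀ v, fderiv ℝ f q v + fderiv ℝ g q v = 0 := by
    intro v
    have := DFunLike.congr_fun h2 v
    simpa using this
  exact ⟨h4 _, h4 _⟩

theorem PQ_alg (E c s m n mx my nx ax ay bx axx axy ayy bxx : ℝ) (hc : c ^ 2 + s ^ 2 = 1)
   (htr : mx * ax + my * bx + nx * ay + (-mx) * (-ax) = 0) :
   let by_ := -ax
   let ny := -mx
   let X := E * c
   let Y := E * s
   let ax1 := -Y * axx + X * axy
   let ay1 := -Y * axy + X * ayy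
   let bx1 := -Y * bxx + X * (-axx)
   let by1 := -Y * (-axx) + X * (-axy)
   let m1 := -Y * mx + X * my
   let n1 := -Y * nx + X * ny
   let ax2 := X * axx + Y * axy
   let ay2 := X * axy + Y * ayy
   let bx2 := X * bxx + Y * (-axx)
   let by2 := X * (-axx) + Y * (-axy)
   let m2 := X * mx + Y * my
   let n2 := X * nx + Y * ny
   let lA := c^2*bx + c*s*(by_-ax) - s^2*ay
   let lB := c*s*bx-c^2*by_-s^2*ax+c*s*ay
   let lC := s^2*bx-c*s*(by_-ax)-c^2*ay
   let lP := -(E*(m*c+n*s))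
   let lQ := E*(n*c-m*s)
   let lA1 := (-2*c*s)*bx + c^2*bx1 + (c^2-s^2)*(by_-ax) + c*s*(by1-ax1) - (2*s*c)*ay - s^2*ay1
   let lB1 := (c^2-s^2)*bx + c*s*bx1 + 2*c*s*by_ - c^2*by1 - 2*s*c*ax - s^2*ax1 + (c^2-s^2)*ay
     + c*s*ay1
   let lB2 := c*s*bx2 - c^2*by2 - s^2*ax2 + c*s*ay2
   let lC2 := s^2*bx2 - c*s*(by2-ax2) - c^2*ay2
   let lP1 := -(E*(m1*c - m*s + n1*s + n*c))
   let lQ1 := E*(n1*c - n*s - m1*s - m*c)
   let lP2 := -(E*(m*c+n*s)) - E*(m2*c+n2*s)
   let lQ2 := E*(n*c-m*s) + E*(n2*c-m2*s)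
   lA1*lP + lA*lP1 + (lB1*lQ + lB*lQ1) + (lB2*lP + lB*lP2 + (lC2*lQ + lC*lQ2)) = 0 := by
  intros
  grind

theorem PQ (hPP : PP_stmt) : PQ_stmt := by
  intro a b m n U ha hb hm hn hU hq θ s hlp
  obtain ⟨cA, cB, cC, cP, cQ, -⟩ := hPP a b m n ha hb hm hn
  have dA : Differentiable ℝ (lA a b) := cA.differentiable (by norm_num)
  have dB : Differentiable ℝ (lB a b) := cB.differentiable (by norm_num)
  have dC : Differentiable ℝ (lC a b) := cC.differentiable (by norm_num)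
  have dP : Differentiable ℝ (lP m n) := cP.differentiable (by norm_num)
  have dQ : Differentiable ℝ (lQ m n) := cQ.differentiable (by norm_num)
  have da : Differentiable ℝ a := ha.differentiable (by norm_num)
  have db : Differentiable ℝ b := hb.differentiable (by norm_num)
  have dm : Differentiable ℝ m := hm.differentiable (by norm_num)
  have dn : Differentiable ℝ n := hn.differentiable (by norm_num)
  obtain ⟨dax, day⟩ := PQ_c1 ha
  obtain ⟨dbx, dby⟩ := PQ_c1 hb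
  obtain ⟨r1, r2, r3⟩ := hq _ hlp
  obtain ⟨r4, r5⟩ := PQ_div dax dby hU (fun q h => (hq q h).1) hlp
  have sa := PQ_symm ha (lp (θ, s))
  have sb := PQ_symm hb (lp (θ, s))
  have hcs := Real.cos_sq_add_sin_sq θ
  -- derivatives along the lines
  have hc := Real.hasDerivAt_cos θ
  have hs := Real.hasDerivAt_sin θ
  have he := Real.hasDerivAt_exp s
  have m1 := PQ_th dm θ s
  have n1 := PQ_th dn θ s
  have m2 := PQ_s dm θ s
  have n2 := PQ_s dn θ s
  have ax1 := PQ_th dax θ s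
  have ay1 := PQ_th day θ s
  have bx1 := PQ_th dbx θ s
  have by1 := PQ_th dby θ s
  have ax2 := PQ_s dax θ s
  have ay2 := PQ_s day θ s
  have bx2 := PQ_s dbx θ s
  have by2 := PQ_s dby θ s
  have P1 : HasDerivAt (fun t => lP m n (t, s)) _ θ :=
    (((m1.mul hc).add (n1.mul hs)).const_mul (Real.exp s)).neg
  have Q1 : HasDerivAt (fun t => lQ m n (t, s)) _ θ :=
    ((n1.mul hc).sub (m1.mul hs)).const_mul (Real.exp s)
  have P2 : HasDerivAt (fun t => lP m n (θ, t)) _ s :=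
    (he.mul ((m2.mul_const (Real.cos θ)).add (n2.mul_const (Real.sin θ)))).neg
  have Q2 : HasDerivAt (fun t => lQ m n (θ, t)) _ s :=
    he.mul ((n2.mul_const (Real.cos θ)).sub (m2.mul_const (Real.sin θ)))
  have A1 : HasDerivAt (fun t => lA a b (t, s)) _ θ :=
    ((((hc.pow 2).mul bx1).add ((hc.mul hs).mul (by1.sub ax1))).sub ((hs.pow 2).mul ay1))
  have B1 : HasDerivAt (fun t => lB a b (t, s)) _ θ :=
    (((((hc.mul hs).mul bx1).sub ((hc.pow 2).mul by1)).sub ((hs.pow 2).mul ax1)).add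
      ((hc.mul hs).mul ay1))
  have B2 : HasDerivAt (fun t => lB a b (θ, t)) _ s :=
    ((((bx2.const_mul (Real.cos θ * Real.sin θ)).sub (by2.const_mul (Real.cos θ ^ 2))).sub
      (ax2.const_mul (Real.sin θ ^ 2))).add (ay2.const_mul (Real.cos θ * Real.sin θ)))
  have C2 : HasDerivAt (fun t => lC a b (θ, t)) _ s :=
    (((bx2.const_mul (Real.sin θ ^ 2)).sub
      ((by2.sub ax2).const_mul (Real.cos θ * Real.sin θ))).sub (ay2.const_mul (Real.cos θ ^ 2)))
  constructor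
  · rw [PQ_py (dP _) P2, PQ_px (dQ _) Q1]
    have hny : py n (lp (θ, s)) = - px m (lp (θ, s)) := by linarith
    rw [hny]
    simp only [Pi.sub_apply, Pi.add_apply, Pi.mul_apply, Pi.pow_apply]
    generalize Real.cos θ = c at *
    generalize Real.sin θ = σ at *
    generalize Real.exp s = E at *
    grind
  · have h1 := PQ_px (F := fun z => lA a b z * lP m n z + lB a b z * lQ m n z)
      (((dA.mul dP).add (dB.mul dQ)) (θ, s)) ((A1.mul P1).add (B1.mul Q1))
    have h2 := PQ_py (F := fun z => lB a b z * lP m n z + lC a b z * lQ m n z)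
      (((dB.mul dP).add (dC.mul dQ)) (θ, s)) ((B2.mul P2).add (C2.mul Q2))
    rw [h1, h2]
    have hby : py b (lp (θ, s)) = - px a (lp (θ, s)) := by linarith
    have hny : py n (lp (θ, s)) = - px m (lp (θ, s)) := by linarith
    have hbxy : px (py b) (lp (θ, s)) = - px (px a) (lp (θ, s)) := by linarith
    have hbyy : py (py b) (lp (θ, s)) = - py (px a) (lp (θ, s)) := by linarith
    rw [hby, hny] at r3
    have key := PQ_alg (Real.exp s) (Real.cos θ) (Real.sin θ) (m (lp (θ, s))) (n (lp (θ, s)))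
      (px m (lp (θ, s))) (py m (lp (θ, s))) (px n (lp (θ, s))) (px a (lp (θ, s)))
      (py a (lp (θ, s))) (px b (lp (θ, s))) (px (px a) (lp (θ, s))) (py (px a) (lp (θ, s)))
      (py (py a) (lp (θ, s))) (px (px b) (lp (θ, s))) hcs r3
    simp only [lA, lB, lC, lP, lQ, Pi.sub_apply, Pi.add_apply, Pi.mul_apply, Pi.pow_apply]
    rw [hby, hny, ← sb, hbxy, hbyy, sa]
    rw [← key]
    simp only [Nat.cast_ofNat, Nat.add_one_sub_one, pow_one]
    ring

end NS
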